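import Pool.Agent.Work.MP_9999b5_ms_helper84.Top

set_option autoImplicit false

/-!
Systems of `k`-subsets which satisfy the MMS inequality exactly, and the passage from such
a system to all `k`-subsets by averaging.
-/

namespace Pool.Agent.Work.QPM

open Finset Pool.Agent.Work.MaxSums

/-- There is a finite system `E` of `k`-subsets of an `n`-element set such that for every
`x` with non-negative sum at least `D = k |ι| / n` members of the system have a non-negative
sum. -/
def Sys (k n : ℕ) : Prop :=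
  ∃ (X ι : Type) (_ : Fintype X) (_ : DecidableEq X) (_ : Fintype ι) (E : ι → Finset X)
    (D : ℕ), Fintype.card X = n ∧ 0 < D ∧ (∀ e, (E e).card = k) ∧
    Fintype.card ι * k = n * D ∧
    ∀ x : X → ℝ, 0 ≤ ∑ i, x i → D ≤ (univ.filter fun e => 0 ≤ ∑ i ∈ E e, x i).card

section avg

variable {X Y : Type} [Fintype X] [DecidableEq X] [Fintype Y] [DecidableEq Y]

lemma exists_perm {A A' : Finset Y} (h : A.card = A'.card) :
    ∃ τ : Equiv.Perm Y, A.map τ.toEmbedding = A' := by
  classical
  let e : {y // y ∈ A} ≃ {y // y ∈ A'} := Finset.equivOfCardEq h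
  refine ⟨Equiv.extendSubtype e, ?_⟩
  apply Finset.eq_of_subset_of_card_le
  · intro y hy
    obtain ⟨a, ha, rfl⟩ := Finset.mem_map.1 hy
    exact Equiv.extendSubtype_mem e a ha
  · rw [Finset.card_map, h]

lemma fiber_card (S : Finset X) {A A' : Finset Y} (h : A.card = A'.card) :
    (univ.filter fun σ : X ≃ Y => S.map σ.toEmbedding = A).card
      = (univ.filter fun σ : X ≃ Y => S.map σ.toEmbedding = A').card := by
  classical
  have key : ∀ {A A' : Finset Y}, A.card = A'.card →
      (univ.filter fun σ : X ≃ Y => S.map σ.toEmbedding = A).card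
      ≤ (univ.filter fun σ : X ≃ Y => S.map σ.toEmbedding = A').card := by
    intro A A' h
    obtain ⟨τ, hτ⟩ := exists_perm h
    refine Finset.card_le_card_of_injOn (fun σ => σ.trans τ) ?_ ?_
    · intro σ hσ
      have hσ' : S.map σ.toEmbedding = A := by simpa using hσ
      have h1 : S.map (σ.trans τ).toEmbedding = A' := by
        rw [← hτ, ← hσ', Finset.map_map]
        rfl
      simpa using h1
    · intro σ _ σ' _ hh
      ext a
      have : (σ.trans τ) a = (σ'.trans τ) a := by rw [show σ.trans τ = σ'.trans τ from hh]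
      simpa using this
  exact le_antisymm (key h) (key h.symm)

lemma avg (S : Finset X) {k : ℕ} (hS : S.card = k) (g : Finset Y → ℝ)
    (hXY : Fintype.card X = Fintype.card Y) :
    ((Fintype.card Y).choose k : ℝ) * ∑ σ : X ≃ Y, g (S.map σ.toEmbedding)
      = (Fintype.card (X ≃ Y) : ℝ) * ∑ A ∈ (univ : Finset Y).powersetCard k, g A := by
  classical
  have hk : k ≤ Fintype.card Y := by
    rw [← hS, ← hXY]; exact Finset.card_le_univ S
  obtain ⟨A₀, -, hA₀⟩ := Finset.exists_subset_card_eq
    (show k ≤ (univ : Finset Y).card by rwa [Finset.card_univ])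
  set N : ℕ := (univ.filter fun σ : X ≃ Y => S.map σ.toEmbedding = A₀).card with hN
  have hmaps : ∀ σ ∈ (univ : Finset (X ≃ Y)),
      S.map σ.toEmbedding ∈ (univ : Finset Y).powersetCard k := by
    intro σ _
    exact Finset.mem_powersetCard.2 ⟨Finset.subset_univ _, by rw [Finset.card_map, hS]⟩
  have gen : ∀ g : Finset Y → ℝ, ∑ σ : X ≃ Y, g (S.map σ.toEmbedding)
      = (N : ℝ) * ∑ A ∈ (univ : Finset Y).powersetCard k, g A := by
    intro g
    rw [← Finset.sum_fiberwise_of_maps_to hmaps, Finset.mul_sum]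
    refine Finset.sum_congr rfl fun A hA => ?_
    have hA' := (Finset.mem_powersetCard.1 hA).2
    rw [Finset.sum_congr rfl (g := fun _ => g A)
      (fun σ hσ => by rw [(Finset.mem_filter.1 hσ).2]), Finset.sum_const, nsmul_eq_mul]
    rw [hN, fiber_card S (show A₀.card = A.card by rw [hA₀, hA'])]
  have h1 : (Fintype.card (X ≃ Y) : ℝ) = (N : ℝ) * ((Fintype.card Y).choose k : ℝ) := by
    have := gen (fun _ => 1)
    simpa [Finset.card_powersetCard] using this
  rw [gen, h1]
  ring

end avg

/-- averaging over all bijections -/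
theorem Sys.mms {k n : ℕ} (hk : 0 < k) (h : Sys k n) : MMS k n := by
  classical
  obtain ⟨X, ι, _, _, _, E, D, hX, hD, hE, hc, H⟩ := h
  intro x hx
  -- `n > 0`
  have hn : 0 < n := by
    rcases Nat.eq_zero_or_pos n with h0 | h0
    · exfalso
      have hXe : Fintype.card X = 0 := by rw [hX, h0]
      have := H (fun _ => 0) (by simp)
      have hpos : 0 < (univ.filter fun e : ι => (0 : ℝ) ≤ ∑ i ∈ E e, (fun _ => (0 : ℝ)) i).card :=
        lt_of_lt_of_le hD this
      obtain ⟨e, _⟩ := Finset.card_pos.1 hpos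
      have h2 := hE e
      have h3 : (E e).card ≤ Fintype.card X := Finset.card_le_univ _
      omega
    · exact h0
  have hXY : Fintype.card X = Fintype.card (Fin n) := by rw [hX, Fintype.card_fin]
  set P : ℕ := (((univ : Finset (Fin n)).powersetCard k).filter
    (fun S : Finset (Fin n) => 0 ≤ ∑ i ∈ S, x i)).card with hP
  let g : Finset (Fin n) → ℝ := fun A => if 0 ≤ ∑ i ∈ A, x i then 1 else 0
  have hg : ∑ A ∈ (univ : Finset (Fin n)).powersetCard k, g A = (P : ℝ) := by
    simp only [g]
    rw [Finset.sum_boole]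
  -- each bijection
  have h1 : ∀ σ : X ≃ Fin n, (D : ℝ) ≤ ∑ e, g ((E e).map σ.toEmbedding) := by
    intro σ
    have h2 := H (fun i => x (σ i)) (by rw [Equiv.sum_comp σ x]; exact hx)
    have h3 : ∑ e, g ((E e).map σ.toEmbedding)
        = ((univ.filter fun e => 0 ≤ ∑ i ∈ E e, x (σ i)).card : ℝ) := by
      simp only [g, Finset.sum_map]
      rw [← Finset.sum_boole]
      rfl
    rw [h3]
    exact_mod_cast h2
  have h2 : (Fintype.card (X ≃ Fin n) : ℝ) * D
      ≤ ∑ e, ∑ σ : X ≃ Fin n, g ((E e).map σ.toEmbedding) := by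
    rw [Finset.sum_comm]
    calc (Fintype.card (X ≃ Fin n) : ℝ) * D = ∑ _σ : X ≃ Fin n, (D : ℝ) := by
          rw [Finset.sum_const, Finset.card_univ, nsmul_eq_mul]
      _ ≤ _ := Finset.sum_le_sum fun σ _ => h1 σ
  have h3 : (n.choose k : ℝ) * ∑ e, ∑ σ : X ≃ Fin n, g ((E e).map σ.toEmbedding)
      = (Fintype.card (X ≃ Fin n) : ℝ) * ((Fintype.card ι : ℝ) * P) := by
    rw [Finset.mul_sum]
    have : ∀ e ∈ (univ : Finset ι), (n.choose k : ℝ) * ∑ σ : X ≃ Fin n,
        g ((E e).map σ.toEmbedding) = (Fintype.card (X ≃ Fin n) : ℝ) * P := by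
      intro e _
      have := avg (Y := Fin n) (E e) (hE e) g hXY
      rw [Fintype.card_fin, hg] at this
      exact this
    rw [Finset.sum_congr rfl this, Finset.sum_const, Finset.card_univ, nsmul_eq_mul]
    ring
  have hcard : (0 : ℝ) < (Fintype.card (X ≃ Fin n) : ℝ) := by
    have : 0 < Fintype.card (X ≃ Fin n) :=
      Fintype.card_pos_iff.2 ⟨Fintype.equivOfCardEq hXY⟩
    exact_mod_cast this
  have h4 : (n.choose k : ℝ) * D ≤ (Fintype.card ι : ℝ) * P := by
    have h5 : (n.choose k : ℝ) * ((Fintype.card (X ≃ Fin n) : ℝ) * D)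
        ≤ (Fintype.card (X ≃ Fin n) : ℝ) * ((Fintype.card ι : ℝ) * P) := by
      rw [← h3]
      exact mul_le_mul_of_nonneg_left h2 (by positivity)
    have h6 : (Fintype.card (X ≃ Fin n) : ℝ) * ((n.choose k : ℝ) * D)
        ≤ (Fintype.card (X ≃ Fin n) : ℝ) * ((Fintype.card ι : ℝ) * P) := by
      calc _ = (n.choose k : ℝ) * ((Fintype.card (X ≃ Fin n) : ℝ) * D) := by ring
        _ ≤ _ := h5
    exact le_of_mul_le_mul_left h6 hcard
  have h4' : n.choose k * D ≤ Fintype.card ι * P := by exact_mod_cast h4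
  -- `n C(n-1,k-1) = k C(n,k)`
  have h7 : n * (n - 1).choose (k - 1) = n.choose k * k := by
    have := Nat.add_one_mul_choose_eq (n - 1) (k - 1)
    rw [show n - 1 + 1 = n by omega, show k - 1 + 1 = k by omega] at this
    exact this
  have h8 : (n * D) * (n - 1).choose (k - 1) ≤ (n * D) * P := by
    calc (n * D) * (n - 1).choose (k - 1) = (n * (n - 1).choose (k - 1)) * D := by ring
      _ = (n.choose k * D) * k := by rw [h7]; ring
      _ ≤ (Fintype.card ι * P) * k := Nat.mul_le_mul_right _ h4'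
      _ = (Fintype.card ι * k) * P := by ring
      _ = (n * D) * P := by rw [hc]
  exact Nat.le_of_mul_le_mul_left h8 (by positivity)

end Pool.Agent.Work.QPM
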