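import Pool.Agent.Work.MP_9999b5_q.Basic

set_option autoImplicit false

namespace Pool.Agent.Work.QPM

open Finset Pool.Agent.Work.MaxSums

lemma choose_id {k n : ℕ} (hk : 0 < k) (hn : 0 < n) :
    n * (n - 1).choose (k - 1) = n.choose k * k := by
  have := Nat.add_one_mul_choose_eq (n - 1) (k - 1)
  rw [show n - 1 + 1 = n by omega, show k - 1 + 1 = k by omega] at this
  exact this

/-- `MMS k k` -/
theorem mms_self (k : ℕ) : MMS k k := by
  intro x hx
  rw [Nat.choose_self]
  rw [Nat.one_le_iff_ne_zero, ← Nat.pos_iff_ne_zero, Finset.card_pos]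
  refine ⟨univ, ?_⟩
  rw [Finset.mem_filter, Finset.mem_powersetCard]
  exact ⟨⟨Finset.subset_univ _, by simp⟩, hx⟩

/-- addition in `n` -/
theorem mms_add {k n₁ n₂ : ℕ} (hk : 0 < k) (h1 : k ≤ n₁) (h2 : k ≤ n₂) (M1 : MMS k n₁)
    (M2 : MMS k n₂) : MMS k (n₁ + n₂) := by
  classical
  apply Sys.mms hk
  set d₁ := (n₁ - 1).choose (k - 1) with hd1
  set d₂ := (n₂ - 1).choose (k - 1) with hd2
  have hd1' : 0 < d₁ := Nat.choose_pos (by omega)
  have hd2' : 0 < d₂ := Nat.choose_pos (by omega)
  let K₁ := {A : Finset (Fin n₁) // A.card = k}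
  let K₂ := {A : Finset (Fin n₂) // A.card = k}
  let ι := (K₁ × Fin d₂) ⊕ (K₂ × Fin d₁)
  let E : ι → Finset (Fin n₁ ⊕ Fin n₂) := fun e => match e with
    | Sum.inl a => a.1.1.map Function.Embedding.inl
    | Sum.inr a => a.1.1.map Function.Embedding.inr
  have c1 : Fintype.card K₁ = n₁.choose k := by
    simp [K₁]
  have c2 : Fintype.card K₂ = n₂.choose k := by
    simp [K₂]
  refine ⟨Fin n₁ ⊕ Fin n₂, ι, inferInstance, inferInstance, inferInstance, E, d₁ * d₂,
    by simp, by positivity, ?_, ?_, ?_⟩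
  · rintro (⟨⟨A, hA⟩, _⟩ | ⟨⟨A, hA⟩, _⟩)
    · simp [E, hA]
    · simp [E, hA]
  · have : Fintype.card ι = n₁.choose k * d₂ + n₂.choose k * d₁ := by
      simp only [ι, Fintype.card_sum, Fintype.card_prod, Fintype.card_fin, c1, c2]
    rw [this]
    have e1 := choose_id (n := n₁) hk (by omega)
    have e2 := choose_id (n := n₂) hk (by omega)
    rw [← hd1] at e1
    rw [← hd2] at e2
    calc (n₁.choose k * d₂ + n₂.choose k * d₁) * k
        = (n₁.choose k * k) * d₂ + (n₂.choose k * k) * d₁ := by ring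
      _ = (n₁ * d₁) * d₂ + (n₂ * d₂) * d₁ := by rw [e1, e2]
      _ = (n₁ + n₂) * (d₁ * d₂) := by ring
  · intro x hx
    have hx' : 0 ≤ ∑ i, x (Sum.inl i) + ∑ i, x (Sum.inr i) := by
      rwa [Fintype.sum_sum_type] at hx
    have hcases : 0 ≤ ∑ i, x (Sum.inl i) ∨ 0 ≤ ∑ i, x (Sum.inr i) := by
      by_contra hcon
      push Not at hcon
      linarith [hcon.1, hcon.2]
    rcases hcases with h | h
    · have := M1 (fun i => x (Sum.inl i)) h
      rw [← hd1] at this
      let F : Finset (Finset (Fin n₁)) := (univ.powersetCard k).filter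
        (fun S : Finset (Fin n₁) => 0 ≤ ∑ i ∈ S, x (Sum.inl i))
      have hFc : d₁ ≤ F.card := this
      calc d₁ * d₂ ≤ F.card * d₂ := Nat.mul_le_mul_right _ hFc
        _ = (F.attach ×ˢ (univ : Finset (Fin d₂))).card := by
          rw [Finset.card_product, Finset.card_attach, Finset.card_univ, Fintype.card_fin]
        _ ≤ _ := by
          refine Finset.card_le_card_of_injOn
            (fun p => Sum.inl (⟨p.1.1, (Finset.mem_powersetCard.1
              (Finset.mem_filter.1 p.1.2).1).2⟩, p.2)) ?_ ?_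
          · rintro ⟨⟨A, hA⟩, j⟩ _
            have hA' := (Finset.mem_filter.1 hA).2
            simpa [E, Finset.sum_map] using hA'
          · rintro ⟨⟨A, hA⟩, j⟩ _ ⟨⟨A', hA'⟩, j'⟩ _ hh
            have hh' := Sum.inl.inj hh
            have e1 := congrArg (fun q => q.1.1) hh'
            have e2 := congrArg (fun q => q.2) hh'
            simp only at e1 e2
            subst e1 e2
            rfl
    · have := M2 (fun i => x (Sum.inr i)) h
      rw [← hd2] at this
      let F : Finset (Finset (Fin n₂)) := (univ.powersetCard k).filter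
        (fun S : Finset (Fin n₂) => 0 ≤ ∑ i ∈ S, x (Sum.inr i))
      have hFc : d₂ ≤ F.card := this
      calc d₁ * d₂ = d₂ * d₁ := Nat.mul_comm _ _
        _ ≤ F.card * d₁ := Nat.mul_le_mul_right _ hFc
        _ = (F.attach ×ˢ (univ : Finset (Fin d₁))).card := by
          rw [Finset.card_product, Finset.card_attach, Finset.card_univ, Fintype.card_fin]
        _ ≤ _ := by
          refine Finset.card_le_card_of_injOn
            (fun p => Sum.inr (⟨p.1.1, (Finset.mem_powersetCard.1
              (Finset.mem_filter.1 p.1.2).1).2⟩, p.2)) ?_ ?_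
          · rintro ⟨⟨A, hA⟩, j⟩ _
            have hA' := (Finset.mem_filter.1 hA).2
            simpa [E, Finset.sum_map] using hA'
          · rintro ⟨⟨A, hA⟩, j⟩ _ ⟨⟨A', hA'⟩, j'⟩ _ hh
            have hh' := Sum.inr.inj hh
            have e1 := congrArg (fun q => q.1.1) hh'
            have e2 := congrArg (fun q => q.2) hh'
            simp only at e1 e2
            subst e1 e2
            rfl

/-- blowing up every point -/
theorem mms_mul {k n N : ℕ} (hk : 0 < k) (hN : 0 < N) (hn : k ≤ n) (M : MMS k n) :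
    MMS (N * k) (N * n) := by
  classical
  apply Sys.mms (by positivity)
  set d := (n - 1).choose (k - 1) with hd
  have hd' : 0 < d := Nat.choose_pos (by omega)
  let K := {A : Finset (Fin n) // A.card = k}
  let E : K → Finset (Fin n × Fin N) := fun A => A.1 ×ˢ univ
  have c1 : Fintype.card K = n.choose k := by simp [K]
  refine ⟨Fin n × Fin N, K, inferInstance, inferInstance, inferInstance, E, d,
    by simp [Nat.mul_comm], hd', ?_, ?_, ?_⟩
  · rintro ⟨A, hA⟩
    simp [E, hA, Nat.mul_comm]
  · rw [c1]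
    have e1 := choose_id (n := n) hk (by omega)
    rw [← hd] at e1
    calc n.choose k * (N * k) = N * (n.choose k * k) := by ring
      _ = N * (n * d) := by rw [e1]
      _ = N * n * d := by ring
  · intro x hx
    have hx' : 0 ≤ ∑ i, ∑ t, x (i, t) := by
      rwa [Fintype.sum_prod_type] at hx
    have := M (fun i => ∑ t, x (i, t)) hx'
    rw [← hd] at this
    let F : Finset (Finset (Fin n)) := (univ.powersetCard k).filter
      (fun S : Finset (Fin n) => 0 ≤ ∑ i ∈ S, ∑ t, x (i, t))
    have hFc : d ≤ F.card := this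
    refine hFc.trans ?_
    rw [← Finset.card_attach]
    refine Finset.card_le_card_of_injOn
      (fun p => ⟨p.1, (Finset.mem_powersetCard.1 (Finset.mem_filter.1 p.2).1).2⟩) ?_ ?_
    · rintro ⟨A, hA⟩ _
      have hA' := (Finset.mem_filter.1 hA).2
      simpa [E, Finset.sum_product] using hA'
    · rintro ⟨A, hA⟩ _ ⟨A', hA'⟩ _ hh
      have e1 := congrArg (fun q => q.1) hh
      simp only at e1
      subst e1
      rfl

end Pool.Agent.Work.QPM
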