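import Pool.Agent.Work.MP_9999b5_q.Plane
import Pool.Agent.Work.MP_9999b5_q.Close
import Pool.Agent.Work.MP_9999b5_ms_helper84.Transfer4

set_option autoImplicit false

namespace Pool.Agent.Work.QPM

open Finset Pool.Agent.Work.MaxSums

/-- The smallest class of pairs `(k, n)` which contains `(k, k)`, `(k, (k+1)^2)`, and `(k, v)`
if there is a Steiner system `S(2, k+1, v)`, and is closed under addition in `n` and under
blowing up. -/
inductive Good : ℕ → ℕ → Prop
  | self {k : ℕ} : 0 < k → Good k k
  | grid {k : ℕ} : 0 < k → Good k ((k + 1) ^ 2)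
  | steiner {k v : ℕ} : 0 < k → k + 1 < v → Steiner (k + 1) v → Good k v
  | add {k n n' : ℕ} : Good k n → Good k n' → Good k (n + n')
  | blow {k n N : ℕ} : 0 < N → Good k n → Good (N * k) (N * n)

lemma Good.pos {k n : ℕ} (h : Good k n) : 0 < k ∧ k ≤ n := by
  induction h with
  | self h => exact ⟨h, le_rfl⟩
  | grid h => exact ⟨h, by nlinarith⟩
  | steiner h h' _ => exact ⟨h, by omega⟩
  | add _ _ h1 h2 => exact ⟨h1.1, by omega⟩
  | blow hN _ h => exact ⟨Nat.mul_pos hN h.1, Nat.mul_le_mul_left _ h.2⟩

theorem Good.mms {k n : ℕ} (h : Good k n) : MMS k n := by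
  induction h with
  | self h => exact mms_self _
  | grid h => exact Sys.mms h (sys_grid _ h)
  | steiner h h' hs => exact Sys.mms h (sys_steiner h h' hs)
  | add h1 h2 m1 m2 => exact mms_add h1.pos.1 h1.pos.2 h2.pos.2 m1 m2
  | blow hN h m => exact mms_mul h.pos.1 hN h.pos.2 m

lemma good_smul {k n : ℕ} (h : Good k n) (j : ℕ) (hj : 0 < j) : Good k (j * n) := by
  induction j with
  | zero => omega
  | succ j ih =>
    rcases Nat.eq_zero_or_pos j with h0 | h0
    · subst h0; simpa using h
    · rw [Nat.add_mul, Nat.one_mul]; exact (ih h0).add h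

/-- the residue classes -/
theorem good_class {k j a N : ℕ} (hk : 0 < k) (hN : 0 < N) (hja : 0 < j + a) :
    Good (N * k) (N * (j * (k + 1) ^ 2 + a * k)) := by
  apply Good.blow hN
  rcases Nat.eq_zero_or_pos j with h0 | h0
  · subst h0
    simpa using good_smul (Good.self hk) a (by omega)
  · rcases Nat.eq_zero_or_pos a with h1 | h1
    · subst h1
      simpa using good_smul (Good.grid hk) j h0
    · exact (good_smul (Good.grid hk) j h0).add (good_smul (Good.self hk) a h1)

end Pool.Agent.Work.QPM
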