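import Pool.Agent.Work.MP_9999b5_q.Basic

set_option autoImplicit false

/-!
The criterion by quantum perfect matchings, written with linear maps
`L e : H → ℂ^r` such that for every point `i` the sum of `‖L e w‖²` over the members
through `i` is the same positive form `Q w`.
-/

namespace Pool.Agent.Work.QPM

open Finset Pool.Agent.Work.MaxSums

/-- A quantum perfect matching of multiplicity `r` of the system `E`, in dimension `r * D`. -/
theorem criterion {X ι H : Type} [Fintype X] [DecidableEq X] [Fintype ι] [AddCommGroup H]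
    [Module ℂ H] [FiniteDimensional ℂ H] [Nonempty X] (E : ι → Finset X) (r D : ℕ)
    (hr : 0 < r) (L : ι → H →ₗ[ℂ] (Fin r → ℂ)) (Q : H → ℝ) (hQ : ∀ w, w ≠ 0 → 0 < Q w)
    (hL : ∀ i w, ∑ e ∈ univ.filter (fun e => i ∈ E e), ∑ t, Complex.normSq (L e w t) = Q w)
    (hD : Module.finrank ℂ H = r * D) (x : X → ℝ) (hx : 0 ≤ ∑ i, x i) :
    D ≤ (univ.filter fun e => 0 ≤ ∑ i ∈ E e, x i).card := by
  classical
  by_contra hcon
  push Not at hcon
  set S := univ.filter fun e => 0 ≤ ∑ i ∈ E e, x i with hS
  -- a vector killed by all members with non-negative sum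
  let T : H →ₗ[ℂ] (S → Fin r → ℂ) := LinearMap.pi fun e => L e.1
  have hker : LinearMap.ker T ≠ ⊥ := by
    apply LinearMap.ker_ne_bot_of_finrank_lt
    rw [hD, Module.finrank_pi_fintype]
    simp only [Module.finrank_fintype_fun_eq_card, Fintype.card_fin, Finset.sum_const,
      Finset.card_univ, Fintype.card_coe, smul_eq_mul]
    rw [Nat.mul_comm _ r]
    exact Nat.mul_lt_mul_of_pos_left hcon hr
  obtain ⟨w, hw, hw0⟩ := (Submodule.ne_bot_iff _).1 hker
  have hw' : ∀ e ∈ S, L e w = 0 := by
    intro e he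
    have := congrFun (LinearMap.mem_ker.1 hw) ⟨e, he⟩
    simpa [T] using this
  -- the weights
  let N : ι → ℝ := fun e => ∑ t, Complex.normSq (L e w t)
  have hN0 : ∀ e, 0 ≤ N e := fun e => Finset.sum_nonneg fun t _ => Complex.normSq_nonneg _
  have hNS : ∀ e ∈ S, N e = 0 := by
    intro e he
    simp [N, hw' e he]
  have key : ∑ e, (∑ i ∈ E e, x i) * N e = (∑ i, x i) * Q w := by
    calc ∑ e, (∑ i ∈ E e, x i) * N e = ∑ e, ∑ i, if i ∈ E e then x i * N e else 0 := by
          refine Finset.sum_congr rfl fun e _ => ?_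
          rw [Finset.sum_mul, ← Finset.sum_filter]
          refine Finset.sum_congr ?_ fun _ _ => rfl
          ext i; simp
      _ = ∑ i, ∑ e, if i ∈ E e then x i * N e else 0 := Finset.sum_comm
      _ = ∑ i, x i * Q w := by
          refine Finset.sum_congr rfl fun i _ => ?_
          rw [← hL i w, Finset.mul_sum, ← Finset.sum_filter]
      _ = _ := by rw [Finset.sum_mul]
  have hQw := hQ w hw0
  have hle : ∀ e, (∑ i ∈ E e, x i) * N e ≤ 0 := by
    intro e
    by_cases he : e ∈ S
    · rw [hNS e he, mul_zero]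
    · have : ∑ i ∈ E e, x i < 0 := by
        by_contra h
        exact he (Finset.mem_filter.2 ⟨Finset.mem_univ _, not_lt.1 h⟩)
      exact mul_nonpos_of_nonpos_of_nonneg this.le (hN0 e)
  have hsum0 : ∑ e, (∑ i ∈ E e, x i) * N e = 0 := by
    apply le_antisymm (Finset.sum_nonpos fun e _ => hle e)
    rw [key]
    positivity
  have hall : ∀ e, N e = 0 := by
    intro e
    by_cases he : e ∈ S
    · exact hNS e he
    · have h1 := (Finset.sum_eq_zero_iff_of_nonpos (fun e _ => hle e)).1 hsum0 e
        (Finset.mem_univ _)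
      have : ∑ i ∈ E e, x i < 0 := by
        by_contra h
        exact he (Finset.mem_filter.2 ⟨Finset.mem_univ _, not_lt.1 h⟩)
      rcases mul_eq_zero.1 h1 with h2 | h2
      · exact absurd h2 this.ne
      · exact h2
  obtain ⟨i⟩ := (inferInstance : Nonempty X)
  have := hL i w
  rw [Finset.sum_eq_zero (fun e _ => hall e)] at this
  exact hQw.ne this

end Pool.Agent.Work.QPM
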