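import Pool.Agent.Work.MP_9999b5_q.Crit

set_option autoImplicit false

/-!
The grid: `(k+1)^2` points, members: a row or a column without one point.
-/

namespace Pool.Agent.Work.QPM

open Finset Pool.Agent.Work.MaxSums

/-- functions with sum zero -/
noncomputable def Zero (X : Type) [Fintype X] : Submodule ℂ (X → ℂ) :=
  LinearMap.ker (∑ i : X, LinearMap.proj (R := ℂ) (φ := fun _ : X => ℂ) i)

lemma mem_Zero {X : Type} [Fintype X] (f : X → ℂ) : f ∈ Zero X ↔ ∑ i, f i = 0 := by
  simp [Zero, LinearMap.mem_ker]

lemma finrank_Zero (X : Type) [Fintype X] [Nonempty X] :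
    Module.finrank ℂ (Zero X) + 1 = Fintype.card X := by
  classical
  set T : (X → ℂ) →ₗ[ℂ] ℂ := ∑ i : X, LinearMap.proj (R := ℂ) (φ := fun _ : X => ℂ) i with hT
  have h1 := LinearMap.finrank_range_add_finrank_ker T
  have h2 : LinearMap.range T = ⊤ := by
    rw [LinearMap.range_eq_top]
    intro z
    obtain ⟨a⟩ := (inferInstance : Nonempty X)
    refine ⟨fun i => if i = a then z else 0, ?_⟩
    simp [hT]
  rw [h2, finrank_top, Module.finrank_self, Module.finrank_fintype_fun_eq_card] at h1
  rw [show Zero X = LinearMap.ker T from rfl]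
  omega

lemma normSq_add' (a b : ℂ) :
    Complex.normSq (a + b) = Complex.normSq a + Complex.normSq b + 2 * (a * star b).re := by
  rw [Complex.normSq_add]
  rfl

/-- The system of the grid. -/
theorem sys_grid (k : ℕ) (hk : 0 < k) : Sys k ((k + 1) ^ 2) := by
  classical
  let I := Fin (k + 1)
  let X := I × I
  let ι := Bool × I × I
  let E : ι → Finset X := fun e => match e with
    | (false, i, j) => (univ.erase j).map ⟨fun t => (i, t), fun _ _ h => (Prod.mk.inj h).2⟩
    | (true, i, j) => (univ.erase i).map ⟨fun t => (t, j), fun _ _ h => (Prod.mk.inj h).1⟩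
  have hE : ∀ e, (E e).card = k := by
    rintro ⟨b, i, j⟩
    cases b <;> simp [E, I]
  let H := Zero I × Zero I
  let s : ℂ := ((Real.sqrt k : ℝ) : ℂ)
  have hs : s * star s = k := by
    have : (Real.sqrt k) * (Real.sqrt k) = k := Real.mul_self_sqrt (by positivity)
    simp only [s, Complex.star_def, Complex.conj_ofReal]
    rw [← Complex.ofReal_mul, this]
    simp
  have hsn : Complex.normSq s = k := by
    have : (Real.sqrt k) * (Real.sqrt k) = k := Real.mul_self_sqrt (by positivity)
    simp only [s, Complex.normSq_ofReal, this]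
  have hsr : star s = s := by simp [s]
  let ev1 : I → H →ₗ[ℂ] ℂ := fun i =>
    (LinearMap.proj i) ∘ₗ (Zero I).subtype ∘ₗ LinearMap.fst ℂ _ _
  let ev2 : I → H →ₗ[ℂ] ℂ := fun i =>
    (LinearMap.proj i) ∘ₗ (Zero I).subtype ∘ₗ LinearMap.snd ℂ _ _
  let L0 : ι → H →ₗ[ℂ] ℂ := fun e => match e with
    | (false, i, j) => ev1 i + s • ev2 j
    | (true, i, j) => s • ev1 i - ev2 j
  let L : ι → H →ₗ[ℂ] (Fin 1 → ℂ) := fun e => LinearMap.pi fun _ => L0 e
  let Q : H → ℝ := fun w => k * (∑ i, Complex.normSq (w.1.1 i) + ∑ j, Complex.normSq (w.2.1 j))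
  have hQ : ∀ w : H, w ≠ 0 → 0 < Q w := by
    intro w hw
    have hk' : (0 : ℝ) < k := by exact_mod_cast hk
    refine mul_pos hk' ?_
    by_contra hcon
    have h1 : 0 ≤ ∑ i, Complex.normSq (w.1.1 i) :=
      Finset.sum_nonneg fun _ _ => Complex.normSq_nonneg _
    have h2 : 0 ≤ ∑ i, Complex.normSq (w.2.1 i) :=
      Finset.sum_nonneg fun _ _ => Complex.normSq_nonneg _
    have e1 : ∑ i, Complex.normSq (w.1.1 i) = 0 := by linarith
    have e2 : ∑ i, Complex.normSq (w.2.1 i) = 0 := by linarith
    rw [Finset.sum_eq_zero_iff_of_nonneg (fun _ _ => Complex.normSq_nonneg _)] at e1 e2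
    apply hw
    refine Prod.ext (Subtype.ext (funext fun i => ?_)) (Subtype.ext (funext fun i => ?_))
    · exact Complex.normSq_eq_zero.1 (e1 i (Finset.mem_univ _))
    · exact Complex.normSq_eq_zero.1 (e2 i (Finset.mem_univ _))
  -- the members through `(i, j)`
  have hfil : ∀ (p : X) (g : ι → ℝ), ∑ e ∈ univ.filter (fun e => p ∈ E e), g e
      = ∑ t ∈ univ.erase p.2, g (false, p.1, t) + ∑ t ∈ univ.erase p.1, g (true, t, p.2) := by
    rintro ⟨i, j⟩ g
    rw [Finset.sum_filter, Fintype.sum_prod_type]
    simp only [Fintype.sum_bool]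
    rw [add_comm]
    congr 1
    · rw [Fintype.sum_prod_type, Finset.sum_eq_single i]
      · rw [← Finset.sum_filter]
        refine Finset.sum_congr ?_ fun _ _ => rfl
        ext t
        simp only [Finset.mem_filter, Finset.mem_univ, true_and, Finset.mem_erase, and_true, E,
          Finset.mem_map, Function.Embedding.coeFn_mk]
        constructor
        · rintro ⟨a, ha, h⟩
          have := (Prod.mk.inj h).2
          intro h'
          exact ha (by rw [this, h'])
        · intro h
          exact ⟨j, fun h' => h h'.symm, rfl⟩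
      · intro b _ hb
        refine Finset.sum_eq_zero fun t _ => if_neg ?_
        simp only [E, Finset.mem_map, Function.Embedding.coeFn_mk]
        rintro ⟨a, _, h⟩
        exact hb (Prod.mk.inj h).1
      · simp
    · rw [Fintype.sum_prod_type_right, Finset.sum_eq_single j]
      · rw [← Finset.sum_filter]
        refine Finset.sum_congr ?_ fun _ _ => rfl
        ext t
        simp only [Finset.mem_filter, Finset.mem_univ, true_and, Finset.mem_erase, and_true, E,
          Finset.mem_map, Function.Embedding.coeFn_mk]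
        constructor
        · rintro ⟨a, ha, h⟩
          have := (Prod.mk.inj h).1
          intro h'
          exact ha (by rw [this, h'])
        · intro h
          exact ⟨i, fun h' => h h'.symm, rfl⟩
      · intro b _ hb
        refine Finset.sum_eq_zero fun t _ => if_neg ?_
        simp only [E, Finset.mem_map, Function.Embedding.coeFn_mk]
        rintro ⟨a, _, h⟩
        exact hb (Prod.mk.inj h).2
      · simp
  have hL : ∀ (p : X) (w : H), ∑ e ∈ univ.filter (fun e => p ∈ E e),
      ∑ t, Complex.normSq (L e w t) = Q w := by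
    rintro ⟨i, j⟩ ⟨⟨a, ha⟩, ⟨b, hb⟩⟩
    rw [hfil]
    have ha' : ∑ t ∈ univ.erase i, a t = - a i := by
      have := (mem_Zero a).1 ha
      rw [← Finset.add_sum_erase _ _ (Finset.mem_univ i)] at this
      linear_combination this
    have hb' : ∑ t ∈ univ.erase j, b t = - b j := by
      have := (mem_Zero b).1 hb
      rw [← Finset.add_sum_erase _ _ (Finset.mem_univ j)] at this
      linear_combination this
    have e1 : ∀ t, ∑ u, Complex.normSq (L (false, i, t) (⟨a, ha⟩, ⟨b, hb⟩) u)
        = Complex.normSq (a i) + k * Complex.normSq (b t) + 2 * (a i * star (s * b t)).re := by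
      intro t
      have : L0 (false, i, t) (⟨a, ha⟩, ⟨b, hb⟩) = a i + s * b t := rfl
      simp only [Finset.univ_unique, Finset.sum_singleton, L, LinearMap.pi_apply]
      rw [this, normSq_add', Complex.normSq_mul, hsn]
    have e2 : ∀ t, ∑ u, Complex.normSq (L (true, t, j) (⟨a, ha⟩, ⟨b, hb⟩) u)
        = k * Complex.normSq (a t) + Complex.normSq (b j)
          + 2 * ((s * a t) * star (- b j)).re := by
      intro t
      have : L0 (true, t, j) (⟨a, ha⟩, ⟨b, hb⟩) = s * a t + (- b j) := by
        rw [← sub_eq_add_neg]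
        rfl
      simp only [Finset.univ_unique, Finset.sum_singleton, L, LinearMap.pi_apply]
      rw [this, normSq_add', Complex.normSq_mul, hsn, Complex.normSq_neg]
    simp only [e1, e2]
    have hc : ((univ : Finset I).erase i).card = k := by simp [I]
    have hc' : ((univ : Finset I).erase j).card = k := by simp [I]
    have s1 : ∑ t ∈ univ.erase j, (a i * star (s * b t)).re
        = (a i * star (s * (- b j))).re := by
      rw [← hb', Finset.mul_sum, star_sum, Finset.mul_sum, Complex.re_sum]
    have s2 : ∑ t ∈ univ.erase i, ((s * a t) * star (- b j)).re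
        = ((s * (- a i)) * star (- b j)).re := by
      rw [← ha', Finset.mul_sum, Finset.sum_mul, Complex.re_sum]
    have s3 : (a i * star (s * (- b j))).re + ((s * (- a i)) * star (- b j)).re = 0 := by
      rw [← Complex.add_re]
      have : a i * star (s * (- b j)) + (s * (- a i)) * star (- b j) = 0 := by
        rw [star_mul, hsr]
        ring
      rw [this, Complex.zero_re]
    have n1 : ∑ t ∈ univ.erase j, Complex.normSq (b t)
        = ∑ t, Complex.normSq (b t) - Complex.normSq (b j) := by
      rw [← Finset.add_sum_erase _ _ (Finset.mem_univ j)]; ring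
    have n2 : ∑ t ∈ univ.erase i, Complex.normSq (a t)
        = ∑ t, Complex.normSq (a t) - Complex.normSq (a i) := by
      rw [← Finset.add_sum_erase _ _ (Finset.mem_univ i)]; ring
    simp only [Finset.sum_add_distrib, Finset.sum_const, nsmul_eq_mul, ← Finset.mul_sum,
      hc, hc', s1, s2, n1, n2]
    simp only [Q]
    linear_combination 2 * s3
  refine ⟨X, ι, inferInstance, inferInstance, inferInstance, E, 2 * k, ?_, by positivity, hE,
    ?_, ?_⟩
  · simp [X, I, sq]
  · simp only [ι, I, Fintype.card_prod, Fintype.card_bool, Fintype.card_fin]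
    ring
  · intro x hx
    refine criterion E 1 (2 * k) one_pos L Q hQ hL ?_ x hx
    have h1 := finrank_Zero I
    have h2 : Module.finrank ℂ H = Module.finrank ℂ (Zero I) + Module.finrank ℂ (Zero I) :=
      Module.finrank_prod
    have hI : Fintype.card I = k + 1 := by simp [I]
    rw [hI] at h1
    rw [h2]
    omega

end Pool.Agent.Work.QPM
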