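import Pool.Agent.Work.MP_9999b5_q.Steiner

set_option autoImplicit false

/-!
Projective planes over finite fields are Steiner systems `S(2, q+1, q^2+q+1)`.
-/

namespace Pool.Agent.Work.QPM

open Finset Pool.Agent.Work.MaxSums Configuration

open scoped LinearAlgebra.Projectivization

theorem steiner_plane {q : ℕ} (hq : IsPrimePow q) : Steiner (q + 1) (q ^ 2 + q + 1) := by
  classical
  obtain ⟨p, n, hp, hn, rfl⟩ := hq
  have : Fact p.Prime := ⟨hp.nat_prime⟩
  let K := GaloisField p n
  have : Fintype K := Fintype.ofFinite K
  have hK : Nat.card K = p ^ n := GaloisField.card p n hn.ne'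
  let P := ℙ K (Fin 3 → K)
  have : Finite P := (Projectivization.finite_iff_of_finite K (Fin 3 → K)).2 inferInstance
  have : Fintype P := Fintype.ofFinite P
  have hP : Fintype.card P = (p ^ n) ^ 2 + p ^ n + 1 := by
    rw [← Nat.card_eq_fintype_card]
    have := Projectivization.card_of_finrank K (Fin 3 → K) (n := 3) (by simp)
    rw [this, hK]
    simp [Finset.sum_range_succ]
    ring
  have ho : ProjectivePlane.order P P = p ^ n := by
    have h1 := ProjectivePlane.card_points P P
    rw [hP] at h1
    rcases lt_trichotomy (ProjectivePlane.order P P) (p ^ n) with h | h | h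
    · nlinarith
    · exact h
    · nlinarith
  refine ⟨P, inferInstance, inferInstance, univ.image (fun l : P => univ.filter (fun x : P => x ∈ l)),
    hP, ?_, ?_⟩
  · intro l hl
    obtain ⟨m, _, rfl⟩ := Finset.mem_image.1 hl
    have h1 := ProjectivePlane.pointCount_eq P m
    rw [ho, pointCount, Nat.card_eq_fintype_card, Fintype.card_subtype] at h1
    exact h1
  · intro a b hab
    have hm := HasLines.mkLine_ax (L := P) hab
    refine ⟨univ.filter (fun x : P => x ∈ HasLines.mkLine (L := P) hab), ⟨?_, ?_, ?_⟩, ?_⟩
    · exact Finset.mem_image.2 ⟨_, Finset.mem_univ _, rfl⟩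
    · simpa using hm.1
    · simpa using hm.2
    · rintro l ⟨hl, ha, hb⟩
      obtain ⟨m, _, rfl⟩ := Finset.mem_image.1 hl
      have ha' : a ∈ m := by simpa using ha
      have hb' : b ∈ m := by simpa using hb
      have := (Nondegenerate.eq_or_eq ha' hb' hm.1 hm.2).resolve_left hab
      rw [this]

end Pool.Agent.Work.QPM
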