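import Pool.Agent.Work.MP_9999b5_q.Grid

set_option autoImplicit false

/-!
Steiner systems `S(2, k+1, v)`: `v` points, members: a line without one point.
-/

namespace Pool.Agent.Work.QPM

open Finset Pool.Agent.Work.MaxSums

/-- There is a Steiner system `S(2, K, v)`: a family of lines with `K` points on `v` points,
such that any two different points lie on exactly one line. -/
def Steiner (K v : ℕ) : Prop :=
  ∃ (X : Type) (_ : Fintype X) (_ : DecidableEq X) (B : Finset (Finset X)),
    Fintype.card X = v ∧ (∀ l ∈ B, l.card = K) ∧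
      ∀ a b : X, a ≠ b → ∃! l, l ∈ B ∧ a ∈ l ∧ b ∈ l

section

variable {X : Type} [Fintype X] [DecidableEq X] {B : Finset (Finset X)}

/-- the lines through a point partition the other points -/
lemma sum_lines {M : Type} [AddCommMonoid M]
    (hB : ∀ a b : X, a ≠ b → ∃! l, l ∈ B ∧ a ∈ l ∧ b ∈ l) (i : X) (g : X → M) :
    ∑ l ∈ B.filter (fun l => i ∈ l), ∑ p ∈ l.erase i, g p = ∑ p ∈ univ.erase i, g p := by
  rw [← Finset.sum_biUnion]
  · refine Finset.sum_congr ?_ fun _ _ => rfl
    ext p
    simp only [Finset.mem_biUnion, Finset.mem_filter, Finset.mem_erase, Finset.mem_univ,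
      and_true]
    constructor
    · rintro ⟨l, _, h, _⟩
      exact h
    · intro h
      obtain ⟨l, ⟨h1, h2, h3⟩, _⟩ := hB i p (fun h' => h h'.symm)
      exact ⟨l, ⟨h1, h2⟩, h, h3⟩
  · intro l hl l' hl' hne
    simp only [Finset.coe_filter, Set.mem_ofPred_eq] at hl hl'
    simp only [Function.onFun]
    rw [Finset.disjoint_left]
    intro p hp hp'
    obtain ⟨m, _, hm⟩ := hB i p (fun h' => (Finset.mem_erase.1 hp).1 h'.symm)
    apply hne
    rw [hm l ⟨hl.1, hl.2, (Finset.mem_erase.1 hp).2⟩,
      hm l' ⟨hl'.1, hl'.2, (Finset.mem_erase.1 hp').2⟩]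

/-- the number of lines through a point -/
lemma lines_card {k : ℕ} (hc : ∀ l ∈ B, l.card = k + 1)
    (hB : ∀ a b : X, a ≠ b → ∃! l, l ∈ B ∧ a ∈ l ∧ b ∈ l) (i : X) :
    (B.filter (fun l => i ∈ l)).card * k + 1 = Fintype.card X := by
  have h1 := sum_lines hB i (fun _ => (1 : ℕ))
  have h2 : ∀ l ∈ B.filter (fun l => i ∈ l), ∑ p ∈ l.erase i, (1 : ℕ) = k := by
    intro l hl
    have hl' := Finset.mem_filter.1 hl
    rw [← Finset.card_eq_sum_ones, Finset.card_erase_of_mem hl'.2, hc l hl'.1]
    omega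
  rw [Finset.sum_congr rfl h2, Finset.sum_const, smul_eq_mul, ← Finset.card_eq_sum_ones,
    Finset.card_erase_of_mem (Finset.mem_univ _), Finset.card_univ] at h1
  have : 0 < Fintype.card X := Fintype.card_pos_iff.2 ⟨i⟩
  omega

/-- Fisher: `k (k + 1) + 1 ≤ v` unless there is only one line. -/
lemma fisher {k : ℕ} (hc : ∀ l ∈ B, l.card = k + 1)
    (hB : ∀ a b : X, a ≠ b → ∃! l, l ∈ B ∧ a ∈ l ∧ b ∈ l) (hv : k + 1 < Fintype.card X) :
    (k + 1) * k + 1 ≤ Fintype.card X := by
  classical
  have h1 : 1 < Fintype.card X := by omega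
  obtain ⟨a, b, hab⟩ := Fintype.one_lt_card_iff.1 h1
  obtain ⟨l, ⟨hl, _, _⟩, _⟩ := hB a b hab
  obtain ⟨o, ho⟩ : ∃ o, o ∉ l := by
    by_contra hcon
    push Not at hcon
    have : l = univ := Finset.eq_univ_of_forall hcon
    have h2 := hc l hl
    rw [this, Finset.card_univ] at h2
    omega
  have hex : ∀ p : X, ∃ m, p ∈ l → m ∈ B ∧ o ∈ m ∧ p ∈ m := by
    intro p
    by_cases hp : p ∈ l
    · obtain ⟨m, hm, _⟩ := hB o p (fun h => ho (h ▸ hp))
      exact ⟨m, fun _ => hm⟩
    · exact ⟨∅, fun h => absurd h hp⟩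
  choose f hf using hex
  have h3 : l.card ≤ (B.filter (fun m => o ∈ m)).card := by
    refine Finset.card_le_card_of_injOn f ?_ ?_
    · intro p hp
      have := hf p hp
      simp [this.1, this.2.1]
    · intro p hp q hq hpq
      by_contra hne
      have h4 := hf p hp
      have h5 := hf q hq
      obtain ⟨m, _, hm⟩ := hB p q hne
      have e1 : l = m := hm l ⟨hl, hp, hq⟩
      have e2 : f p = m := hm (f p) ⟨h4.1, h4.2.2, by rw [hpq]; exact h5.2.2⟩
      apply ho
      rw [e1, ← e2]
      exact h4.2.1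
  have h6 := lines_card hc hB o
  rw [hc l hl] at h3
  have h7 := Nat.mul_le_mul_right k h3
  omega

end

/-- The system of a Steiner system. -/
theorem sys_steiner {k v : ℕ} (hk : 0 < k) (hv : k + 1 < v) (h : Steiner (k + 1) v) :
    Sys k v := by
  classical
  obtain ⟨X, _, _, B, hX, hc, hB⟩ := h
  have hvX : k + 1 < Fintype.card X := by rw [hX]; exact hv
  have hF := fisher hc hB hvX
  have hne : Nonempty X := Fintype.card_pos_iff.1 (by omega)
  let ι := {q : X × Finset X // q.2 ∈ B ∧ q.1 ∈ q.2}
  let E : ι → Finset X := fun q => q.1.2.erase q.1.1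
  have hE : ∀ e, (E e).card = k := by
    rintro ⟨⟨p, l⟩, hl, hp⟩
    have : (l.erase p).card = k := by
      rw [Finset.card_erase_of_mem hp, hc l hl]; omega
    exact this
  -- the parameter
  set m : ℝ := (v : ℝ) - k - 1 with hm
  have hvR : ((k : ℝ) + 1) * k + 1 ≤ v := by
    rw [← hX]; exact_mod_cast hF
  have hk1 : (1 : ℝ) ≤ k := by exact_mod_cast hk
  have hm4 : (k : ℝ) ^ 2 ≤ 4 * m := by nlinarith
  have hm0 : 0 < m := by nlinarith
  let y : ℝ := Real.sqrt (m - (k : ℝ) ^ 2 / 4)
  have hy : y * y = m - (k : ℝ) ^ 2 / 4 := Real.mul_self_sqrt (by linarith)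
  let α : ℂ := ⟨-(k : ℝ) / 2, y⟩
  have hα : Complex.normSq α = m := by
    rw [Complex.normSq_mk, hy]; ring
  have hαr : α.re = -(k : ℝ) / 2 := rfl
  let H := Zero X
  let ev : X → H →ₗ[ℂ] ℂ := fun p => (LinearMap.proj p) ∘ₗ (Zero X).subtype
  let L0 : ι → H →ₗ[ℂ] ℂ := fun q => α • ev q.1.1 + ∑ p ∈ q.1.2, ev p
  let L : ι → H →ₗ[ℂ] (Fin 1 → ℂ) := fun e => LinearMap.pi fun _ => L0 e
  let Q : H → ℝ := fun w => m * ∑ i, Complex.normSq (w.1 i)
  have hQ : ∀ w : H, w ≠ 0 → 0 < Q w := by
    intro w hw
    refine mul_pos hm0 ?_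
    by_contra hcon
    have h1 : 0 ≤ ∑ i, Complex.normSq (w.1 i) :=
      Finset.sum_nonneg fun _ _ => Complex.normSq_nonneg _
    have e1 : ∑ i, Complex.normSq (w.1 i) = 0 := by linarith
    rw [Finset.sum_eq_zero_iff_of_nonneg (fun _ _ => Complex.normSq_nonneg _)] at e1
    apply hw
    refine Subtype.ext (funext fun i => ?_)
    exact Complex.normSq_eq_zero.1 (e1 i (Finset.mem_univ _))
  -- the members through `i`
  have hfil : ∀ (i : X) (g : X → Finset X → ℝ),
      ∑ e ∈ univ.filter (fun e : ι => i ∈ E e), g e.1.1 e.1.2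
      = ∑ l ∈ B.filter (fun l => i ∈ l), ∑ p ∈ l.erase i, g p l := by
    intro i g
    rw [Finset.sum_sigma']
    refine Finset.sum_bij' (fun e _ => ⟨e.1.2, e.1.1⟩)
      (fun z hz => ⟨(z.2, z.1), by
        have := Finset.mem_sigma.1 hz
        exact ⟨(Finset.mem_filter.1 this.1).1, Finset.mem_of_mem_erase this.2⟩⟩) ?_ ?_ ?_ ?_ ?_
    · rintro ⟨⟨p, l⟩, hl, hp⟩ he
      have he' : i ∈ l.erase p := (Finset.mem_filter.1 he).2
      have h1 := Finset.mem_erase.1 he'
      simp only [Finset.mem_sigma, Finset.mem_filter, Finset.mem_erase]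
      exact ⟨⟨hl, h1.2⟩, fun h => h1.1 h.symm, hp⟩
    · rintro ⟨l, p⟩ hz
      have := Finset.mem_sigma.1 hz
      have h1 := (Finset.mem_filter.1 this.1).2
      have h2 := Finset.mem_erase.1 this.2
      simp only [Finset.mem_filter, Finset.mem_univ, true_and, E, Finset.mem_erase]
      exact ⟨fun h => h2.1 h.symm, h1⟩
    · rintro ⟨⟨p, l⟩, hl, hp⟩ _
      rfl
    · rintro ⟨l, p⟩ _
      rfl
    · rintro ⟨⟨p, l⟩, hl, hp⟩ _
      rfl
  have hL : ∀ (i : X) (w : H), ∑ e ∈ univ.filter (fun e => i ∈ E e),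
      ∑ t, Complex.normSq (L e w t) = Q w := by
    rintro i ⟨f, hf⟩
    have hf0 := (mem_Zero f).1 hf
    have hf' : ∑ t ∈ univ.erase i, f t = - f i := by
      rw [← Finset.add_sum_erase _ _ (Finset.mem_univ i)] at hf0
      linear_combination hf0
    let F : Finset X → ℂ := fun l => ∑ p ∈ l, f p
    have e1 : ∀ e : ι, ∑ u, Complex.normSq (L e ⟨f, hf⟩ u)
        = (fun p l => m * Complex.normSq (f p) + Complex.normSq (F l)
          + 2 * ((α * f p) * star (F l)).re) e.1.1 e.1.2 := by
      rintro ⟨⟨p, l⟩, hl, hp⟩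
      have : L0 ⟨⟨p, l⟩, hl, hp⟩ ⟨f, hf⟩ = α * f p + F l := by
        simp only [L0, LinearMap.add_apply, LinearMap.smul_apply, LinearMap.sum_apply, F]
        rfl
      simp only [Finset.univ_unique, Finset.sum_singleton, L, LinearMap.pi_apply]
      rw [this, normSq_add', Complex.normSq_mul, hα]
    rw [Finset.sum_congr rfl (fun e _ => e1 e)]
    refine (hfil i (fun p l => m * Complex.normSq (f p) + Complex.normSq (F l)
          + 2 * ((α * f p) * star (F l)).re)).trans ?_
    -- one line
    have e2 : ∀ l ∈ B.filter (fun l => i ∈ l),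
        ∑ p ∈ l.erase i, (m * Complex.normSq (f p) + Complex.normSq (F l)
          + 2 * ((α * f p) * star (F l)).re)
        = ∑ p ∈ l.erase i, m * Complex.normSq (f p) - 2 * ((α * f i) * star (F l)).re := by
      intro l hl
      have hl' := Finset.mem_filter.1 hl
      have c1 : (l.erase i).card = k := by
        rw [Finset.card_erase_of_mem hl'.2, hc l hl'.1]; omega
      have c2 : ∑ p ∈ l.erase i, f p = F l - f i := by
        simp only [F]
        rw [← Finset.add_sum_erase _ _ hl'.2]; ring
      have c3 : ∑ p ∈ l.erase i, ((α * f p) * star (F l)).re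
          = ((α * (F l - f i)) * star (F l)).re := by
        rw [← c2, Finset.mul_sum, Finset.sum_mul, Complex.re_sum]
      have c4 : ((α * (F l - f i)) * star (F l)).re
          = α.re * Complex.normSq (F l) - ((α * f i) * star (F l)).re := by
        have : (α * (F l - f i)) * star (F l) = α * (F l * star (F l)) - (α * f i) * star (F l) := by
          ring
        rw [this, Complex.star_def, Complex.mul_conj, Complex.sub_re, Complex.re_mul_ofReal]
      simp only [Finset.sum_add_distrib, Finset.sum_const, nsmul_eq_mul, ← Finset.mul_sum, c1,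
        c3, c4, hαr]
      ring
    rw [Finset.sum_congr rfl e2, Finset.sum_sub_distrib, sum_lines hB i]
    -- the sum of the line sums
    have e3 : ∑ l ∈ B.filter (fun l => i ∈ l), F l
        = (((B.filter (fun l => i ∈ l)).card : ℂ) - 1) * f i := by
      have d1 : ∀ l ∈ B.filter (fun l => i ∈ l), F l = f i + ∑ p ∈ l.erase i, f p := by
        intro l hl
        simp only [F]
        rw [← Finset.add_sum_erase _ _ (Finset.mem_filter.1 hl).2]
      rw [Finset.sum_congr rfl d1, Finset.sum_add_distrib, sum_lines hB i, hf',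
        Finset.sum_const, nsmul_eq_mul]
      ring
    have e4 : ∑ l ∈ B.filter (fun l => i ∈ l), 2 * ((α * f i) * star (F l)).re
        = 2 * ((α * f i) * star (∑ l ∈ B.filter (fun l => i ∈ l), F l)).re := by
      rw [star_sum, Finset.mul_sum, Complex.re_sum, Finset.mul_sum]
    have hr := lines_card hc hB i
    set r : ℕ := (B.filter (fun l => i ∈ l)).card with hrdef
    have e5 : ((α * f i) * star (((r : ℂ) - 1) * f i)).re
        = α.re * (((r : ℝ) - 1) * Complex.normSq (f i)) := by
      have : (α * f i) * star (((r : ℂ) - 1) * f i)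
          = α * ((((r : ℝ) - 1) * Complex.normSq (f i) : ℝ) : ℂ) := by
        rw [star_mul, star_sub, star_one, Complex.star_def, Complex.conj_natCast]
        push_cast
        rw [← Complex.mul_conj]
        ring
      rw [this, Complex.re_mul_ofReal]
    rw [e4, e3, e5, hαr]
    have hrk : (r : ℝ) * k + 1 = v := by
      rw [← hX]; exact_mod_cast hr
    have n2 : ∑ t ∈ univ.erase i, m * Complex.normSq (f t)
        = m * (∑ t, Complex.normSq (f t) - Complex.normSq (f i)) := by
      rw [← Finset.add_sum_erase _ _ (Finset.mem_univ i), ← Finset.mul_sum]; ring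
    rw [n2]
    simp only [Q]
    have : m = (r : ℝ) * k - k := by rw [hm]; linarith
    rw [this]
    ring
  -- counting the flags
  have hcard : Fintype.card ι * k = Fintype.card X * (Fintype.card X - 1) := by
    have h1 : Fintype.card ι * k = ∑ e : ι, (E e).card := by
      rw [Finset.sum_congr rfl (fun e _ => hE e), Finset.sum_const, Finset.card_univ,
        smul_eq_mul]
    have h2 : ∑ e : ι, (E e).card = ∑ i : X, (univ.filter (fun e : ι => i ∈ E e)).card := by
      simp only [Finset.card_eq_sum_ones, Finset.sum_filter]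
      rw [Finset.sum_comm]
      refine Finset.sum_congr rfl fun e _ => ?_
      rw [← Finset.sum_filter]
      refine Finset.sum_congr ?_ fun _ _ => rfl
      ext i; simp
    have h3 : ∀ i : X, (univ.filter (fun e : ι => i ∈ E e)).card = Fintype.card X - 1 := by
      intro i
      have := hfil i (fun _ _ => 1)
      rw [sum_lines hB i (fun _ => (1 : ℝ)), Finset.sum_const, Finset.sum_const, nsmul_eq_mul,
        nsmul_eq_mul, mul_one, mul_one, Finset.card_erase_of_mem (Finset.mem_univ _),
        Finset.card_univ] at this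
      exact_mod_cast this
    rw [h1, h2, Finset.sum_congr rfl (fun i _ => h3 i), Finset.sum_const, Finset.card_univ,
      smul_eq_mul]
  refine ⟨X, ι, inferInstance, inferInstance, inferInstance, E, v - 1, hX, by omega, hE,
    ?_, ?_⟩
  · rw [hcard, hX]
  · intro x hx
    refine criterion E 1 (v - 1) one_pos L Q hQ hL ?_ x hx
    have h1 := finrank_Zero X
    rw [hX] at h1
    have h2 : Module.finrank ℂ H = Module.finrank ℂ (Zero X) := rfl
    rw [h2]
    omega

end Pool.Agent.Work.QPM
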